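import Pool.Agent.N656.MD.Stm
import Pool.Agent.N277.MH.GEN

/-!
# Project MD (helper656), part VLOW (helper391)
-/

set_option autoImplicit false

namespace Pool.Agent.N391.MD

open Filter MeasureTheory Set Topology
open Pool.Agent.N656.MH Pool.Agent.N656.MD Pool.Agent.N277.MH

/-- from `β` to `β ^ q` -/
theorem mem_V {β : ℝ} (hβ0 : 0 < β) (p q : ℕ) (hq : 1 ≤ q) (hqp : q ≤ p) (τ σ : ℝ) (hτ : τ < σ)
    (hσ0 : 0 ≤ σ) (h : β ∈ W ((p : ℝ) / q) σ) : β ^ q ∈ V p q τ := by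
  have hqpos : (0 : ℝ) < q := by exact_mod_cast (by omega : 0 < q)
  have hq0 : (q : ℝ) ≠ 0 := hqpos.ne'
  set K : ℝ := q * 2 ^ (q - 1) * β ^ (q - 1) with hK
  have hK0 : 0 < K := by positivity
  have hBt : Tendsto (fun x : ℕ => β * (x : ℝ) ^ ((p : ℝ) / q)) atTop atTop := by
    refine Tendsto.const_mul_atTop hβ0 ?_
    refine (tendsto_rpow_atTop ?_).comp tendsto_natCast_atTop_atTop
    have : (0 : ℝ) < p := by exact_mod_cast (by omega : 0 < p)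
    positivity
  have hKt : Tendsto (fun x : ℕ => (x : ℝ) ^ (σ - τ)) atTop atTop :=
    (tendsto_rpow_atTop (by linarith)).comp tendsto_natCast_atTop_atTop
  have hev : ∀ᶠ x : ℕ in atTop, (1 ≤ β * (x : ℝ) ^ ((p : ℝ) / q) ∧ 1 ≤ x) ∧
      K ≤ (x : ℝ) ^ (σ - τ) :=
    ((hBt.eventually_ge_atTop 1).and (eventually_ge_atTop 1)).and (hKt.eventually_ge_atTop K)
  change ∃ᶠ n : ℕ in atTop, dn (β * (n : ℝ) ^ ((p : ℝ) / q)) < (n : ℝ) ^ (-σ) at h
  change ∃ᶠ x : ℕ in atTop, ∃ y : ℕ,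
    |(y : ℝ) ^ q - β ^ q * (x : ℝ) ^ p| < (x : ℝ) ^ ((p : ℝ) - p / q - τ)
  refine (h.and_eventually hev).mono ?_
  rintro x ⟨h1, ⟨hB1, hx⟩, hKx⟩
  set B : ℝ := β * (x : ℝ) ^ ((p : ℝ) / q) with hB
  have hx0 : (0 : ℝ) < x := by exact_mod_cast hx
  have hr : 0 ≤ round B := by
    rw [round_eq]
    exact Int.floor_nonneg.2 (by linarith)
  refine ⟨(round B).toNat, ?_⟩
  have hy : (((round B).toNat : ℕ) : ℝ) = (round B : ℝ) := by
    have : (((round B).toNat : ℕ) : ℤ) = round B := Int.toNat_of_nonneg hr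
    exact_mod_cast congrArg (Int.cast : ℤ → ℝ) this
  have hdn : |((((round B).toNat : ℕ) : ℝ)) - B| = dn B := by
    rw [hy, abs_sub_comm]
    rfl
  have hhalf : dn B ≤ 1 / 2 := abs_sub_round B
  have hyB : (((round B).toNat : ℕ) : ℝ) ≤ 2 * B := by
    have h2 := (abs_le.1 (hdn.le.trans hhalf)).2
    linarith
  have hub := pow_diff_ub q (y := (((round B).toNat : ℕ) : ℝ)) (B := B) (M := 2 * B)
    (Nat.cast_nonneg _) (by linarith) hyB (by linarith)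
  have hBq : B ^ q = β ^ q * (x : ℝ) ^ p := by
    rw [hB, mul_pow]
    congr 1
    rw [← Real.rpow_natCast ((x : ℝ) ^ ((p : ℝ) / q)), ← Real.rpow_mul (Nat.cast_nonneg _),
      div_mul_cancel₀ _ hq0, Real.rpow_natCast]
  rw [hBq, hdn] at hub
  refine hub.trans_lt ?_
  have hBq1 : B ^ (q - 1) = β ^ (q - 1) * ((x : ℝ) ^ ((p : ℝ) - p / q - 1) * (x : ℝ)) :=
    B_pow1 p q hq hx
  have hX : 0 < (x : ℝ) ^ ((p : ℝ) - p / q - 1) := Real.rpow_pos_of_pos hx0 _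
  rw [mul_pow, hBq1]
  have e1 : (q : ℝ) * (2 ^ (q - 1) * (β ^ (q - 1) * ((x : ℝ) ^ ((p : ℝ) - p / q - 1) * (x : ℝ)))) *
      dn B = (K * ((x : ℝ) ^ ((p : ℝ) - p / q - 1) * x)) * dn B := by
    rw [hK]
    ring
  rw [e1]
  have h2 : (K * ((x : ℝ) ^ ((p : ℝ) - p / q - 1) * x)) * dn B <
      (K * ((x : ℝ) ^ ((p : ℝ) - p / q - 1) * x)) * (x : ℝ) ^ (-σ) :=
    mul_lt_mul_of_pos_left h1 (by positivity)
  refine h2.trans_le ?_
  have h3 : (K * ((x : ℝ) ^ ((p : ℝ) - p / q - 1) * x)) * (x : ℝ) ^ (-σ) ≤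
      ((x : ℝ) ^ (σ - τ) * ((x : ℝ) ^ ((p : ℝ) - p / q - 1) * x)) * (x : ℝ) ^ (-σ) := by
    have : 0 ≤ (x : ℝ) ^ (-σ) := Real.rpow_nonneg hx0.le _
    exact mul_le_mul_of_nonneg_right (mul_le_mul_of_nonneg_right hKx (by positivity)) this
  refine h3.trans (le_of_eq ?_)
  have e2 : (x : ℝ) ^ ((p : ℝ) - p / q - τ) =
      (x : ℝ) ^ (σ - τ) * ((x : ℝ) ^ ((p : ℝ) - p / q - 1) * (x : ℝ) ^ (1 : ℝ)) * (x : ℝ) ^ (-σ) := by
    rw [← Real.rpow_add hx0, ← Real.rpow_add hx0, ← Real.rpow_add hx0]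
    congr 1
    ring
  rw [e2, Real.rpow_one]

/-- VLOW -/
theorem vlow : Pool.Agent.N656.MD.S_VLOW := by
  intro p q hq hqp hW τ hτ a b ha hab
  have hqpos : (0 : ℝ) < q := by exact_mod_cast (by omega : 0 < q)
  have hq0 : (q : ℝ) ≠ 0 := hqpos.ne'
  have hp0 : (0 : ℝ) < p := by exact_mod_cast (by omega : 0 < p)
  have hb : 0 < b := ha.trans hab
  set ψ : ℝ → ℝ := fun l => l ^ ((1 : ℝ) / q) with hψ
  have hψq : ∀ l : ℝ, 0 ≤ l → ψ l ^ q = l := fun l hl => by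
    rw [hψ]
    simp only
    rw [← Real.rpow_natCast, ← Real.rpow_mul hl, one_div_mul_cancel hq0, Real.rpow_one]
  have hψpos : ∀ l : ℝ, 0 < l → 0 < ψ l := fun l hl => Real.rpow_pos_of_pos hl _
  have hψinv : ∀ β : ℝ, 0 ≤ β → ψ (β ^ q) = β := fun β hβ => by
    rw [hψ]
    simp only
    rw [← Real.rpow_natCast, ← Real.rpow_mul hβ, mul_one_div_cancel hq0, Real.rpow_one]
  have hψmono : ∀ l m : ℝ, 0 ≤ l → l ≤ m → ψ l ≤ ψ m := fun l m hl hlm =>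
    Real.rpow_le_rpow hl hlm (by positivity)
  have hψlt : ψ a < ψ b := Real.rpow_lt_rpow ha.le hab (by positivity)
  have hm : 0 < ψ a ^ (q - 1) := pow_pos (hψpos a ha) _
  have hlip : LipschitzOnWith (Real.toNNReal (1 / ψ a ^ (q - 1))) ψ (V p q τ ∩ Icc a b) := by
    apply LipschitzOnWith.of_dist_le_mul
    intro l hl m hm'
    rw [Real.coe_toNNReal _ (by positivity), Real.dist_eq, Real.dist_eq]
    have hl0 : 0 < l := ha.trans_le hl.2.1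
    have hm0 : 0 < m := ha.trans_le hm'.2.1
    have h1 := pow_diff_lb q hq (y := ψ l) (B := ψ m) (hψpos l hl0).le (hψpos m hm0).le
    rw [hψq l hl0.le, hψq m hm0.le] at h1
    have h2 : ψ a ^ (q - 1) ≤ ψ m ^ (q - 1) :=
      pow_le_pow_left₀ (hψpos a ha).le (hψmono a m ha.le hm'.2.1) _
    have h3 : ψ a ^ (q - 1) * |ψ l - ψ m| ≤ |l - m| :=
      (mul_le_mul_of_nonneg_right h2 (abs_nonneg _)).trans h1
    rw [div_mul_eq_mul_div, one_mul, le_div_iff₀ hm]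
    linarith
  have key : ∀ σ : ℝ, τ < σ → ENNReal.ofReal ((1 + (p : ℝ) / q) / (σ + (p : ℝ) / q)) ≤
      dimH (V p q τ ∩ Icc a b) := by
    intro σ hσ
    refine (hW σ (by linarith) (ψ a) (ψ b) hψlt).trans (le_trans (dimH_mono ?_)
      hlip.dimH_image_le)
    rintro β ⟨hβ1, hβ2⟩
    have hβ0 : 0 < β := (hψpos a ha).trans_le hβ2.1
    refine ⟨β ^ q, ⟨mem_V hβ0 p q hq hqp τ σ hσ (by linarith) hβ1, ?_, ?_⟩, hψinv β hβ0.le⟩
    · rw [← hψq a ha.le]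
      exact pow_le_pow_left₀ (hψpos a ha).le hβ2.1 _
    · rw [← hψq b hb.le]
      exact pow_le_pow_left₀ hβ0.le hβ2.2 _
  have e : ((p : ℝ) + q) / (q * τ + p) = (1 + (p : ℝ) / q) / (τ + (p : ℝ) / q) := by
    field_simp
    ring
  rw [e]
  have hlim : Tendsto (fun n : ℕ => ENNReal.ofReal
      ((1 + (p : ℝ) / q) / ((τ + 1 / ((n : ℝ) + 1)) + (p : ℝ) / q))) atTop
      (𝓝 (ENNReal.ofReal ((1 + (p : ℝ) / q) / (τ + (p : ℝ) / q)))) := by
    apply ENNReal.tendsto_ofReal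
    have h1 : Tendsto (fun n : ℕ => (τ + 1 / ((n : ℝ) + 1)) + (p : ℝ) / q) atTop
        (𝓝 (τ + (p : ℝ) / q)) := by
      have := ((tendsto_one_div_add_atTop_nhds_zero_nat (𝕜 := ℝ)).const_add τ).add_const
        ((p : ℝ) / q)
      simpa using this
    exact tendsto_const_nhds.div h1 (by positivity)
  refine le_of_tendsto hlim (Filter.Eventually.of_forall fun n => key _ ?_)
  have : (0 : ℝ) < 1 / ((n : ℝ) + 1) := by positivity
  linarith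

end Pool.Agent.N391.MD
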